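import Pool.Agent.helper36.UT.Spec

set_option autoImplicit false

open Filter Polynomial FirstOrder FirstOrder.Language

namespace Pool.Agent.UnivT

theorem EPC_per (s : ℕ → Bool) (p N : ℕ) (h : ∀ i, N ≤ i → s (i + p) = s i) (w i : ℕ) (hi : N ≤ i) :
    s (i + p * w) = s i := by
  induction w with
  | zero => simp
  | succ w ih =>
    have : i + p * (w + 1) = (i + p * w) + p := by ring
    rw [this, h _ (by omega), ih]

theorem EPC : EPC_stmt := by
  intro s
  rintro ⟨p, N, hp, hper⟩
  refine ⟨p, hp, fun ρ => ?_⟩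
  set N0 : ℕ := N * p + ρ % p with hN0
  have hN0N : N ≤ N0 := by
    have : N * 1 ≤ N * p := Nat.mul_le_mul_left N hp
    omega
  set P : ℚ := ∑ i ∈ Finset.range p, (if s (N0 + i) then (2 : ℚ) ^ i else 0) with hP
  set Q : ℚ := ∑ i ∈ Finset.range p, (if s (N0 + i) then (1 : ℚ) else 0) with hQ
  have hD : (2 : ℚ) ^ p - 1 ≠ 0 := by
    have h1 : (1 : ℚ) < 2 ^ p := one_lt_pow₀ (by norm_num) (by omega)
    linarith
  have hpQ : (p : ℚ) ≠ 0 := by exact_mod_cast hp.ne'
  have stepV : ∀ w : ℕ, (val s (N0 + p * (w + 1)) : ℚ) = val s (N0 + p * w) + 2 ^ (N0 + p * w) * P := by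
    intro w
    have e : N0 + p * (w + 1) = (N0 + p * w) + p := by ring
    rw [e]
    unfold val
    rw [Finset.sum_range_add]
    push_cast
    rw [hP, Finset.mul_sum]
    congr 1
    apply Finset.sum_congr rfl
    intro i _
    have e2 : N0 + p * w + i = (N0 + i) + p * w := by ring
    have e3 : s (N0 + p * w + i) = s (N0 + i) := by
      rw [e2, EPC_per s p N hper w (N0 + i) (by omega)]
    rw [e3]
    split_ifs
    · rw [pow_add]
    · simp
  have stepC : ∀ w : ℕ, (cnt s (N0 + p * (w + 1)) : ℚ) = cnt s (N0 + p * w) + Q := by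
    intro w
    have e : N0 + p * (w + 1) = (N0 + p * w) + p := by ring
    rw [e]
    unfold cnt
    rw [Finset.sum_range_add]
    push_cast
    rw [hQ]
    congr 1
    apply Finset.sum_congr rfl
    intro i _
    have e2 : N0 + p * w + i = (N0 + i) + p * w := by ring
    have e3 : s (N0 + p * w + i) = s (N0 + i) := by
      rw [e2, EPC_per s p N hper w (N0 + i) (by omega)]
    rw [e3]
  have hV : ∀ w : ℕ, (val s (N0 + p * w) : ℚ) =
      ((val s N0 : ℚ) - 2 ^ N0 * P / (2 ^ p - 1)) + P / (2 ^ p - 1) * 2 ^ (N0 + p * w) := by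
    intro w
    induction w with
    | zero =>
      simp only [mul_zero, add_zero]
      field_simp
      ring
    | succ w ih =>
      rw [stepV, ih]
      have e : N0 + p * (w + 1) = (N0 + p * w) + p := by ring
      rw [e, pow_add _ (N0 + p * w) p]
      field_simp
      ring
  have hC : ∀ w : ℕ, (cnt s (N0 + p * w) : ℚ) = ((cnt s N0 : ℚ) - Q / p * N0) + Q / p * ((N0 + p * w : ℕ) : ℚ) := by
    intro w
    induction w with
    | zero =>
      simp only [mul_zero, add_zero]
      ring
    | succ w ih =>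
      rw [stepC, ih]
      push_cast
      field_simp
      ring
  refine ⟨(val s N0 : ℚ) - 2 ^ N0 * P / (2 ^ p - 1), P / (2 ^ p - 1), (cnt s N0 : ℚ) - Q / p * N0, Q / p, N0,
    fun L hL hmod => ?_⟩
  · obtain ⟨w, hw⟩ : ∃ w, L = N0 + p * w := by
      have h1 : N0 % p = ρ % p := by
        rw [hN0]
        simp
      have h2 : N0 ≡ L [MOD p] := by
        unfold Nat.ModEq
        rw [h1, hmod]
      have h3 : p ∣ L - N0 := (Nat.modEq_iff_dvd' hL).mp h2
      obtain ⟨w, hw⟩ := h3
      exact ⟨w, by omega⟩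
    subst hw
    exact ⟨hV w, hC w⟩

end Pool.Agent.UnivT
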