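import Pool.Agent.helper36.UT.Spec

set_option autoImplicit false

open Filter Polynomial FirstOrder FirstOrder.Language

namespace Pool.Agent.UnivT

theorem EPF_all {α : Type*} (l : List α) (p : α → ℕ → Prop) (h : ∀ x ∈ l, ∀ᶠ H : ℕ in atTop, p x H) :
    ∀ᶠ H : ℕ in atTop, ∀ x ∈ l, p x H := by
  induction l with
  | nil => exact Eventually.of_forall (fun H x hx => by simp at hx)
  | cons y l ih =>
    have h1 := h y (by simp)
    have h2 := ih (fun x hx => h x (by simp [hx]))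
    filter_upwards [h1, h2] with H a1 a2 x hx
    rcases List.mem_cons.mp hx with rfl | hx
    · exact a1
    · exact a2 x hx

theorem EPF_den (q : ℚ) (l : List (ℚ × (ℕ → ℤ))) :
    ∃ N : ℕ, 0 < N ∧ (∃ A : ℤ, (N : ℚ) * q = A) ∧ ∀ x ∈ l, ∃ a : ℤ, (N : ℚ) * x.1 = a := by
  induction l with
  | nil =>
    refine ⟨q.den, q.den_pos, ⟨q.num, ?_⟩, by simp⟩
    rw [mul_comm]; exact Rat.mul_den_eq_num q
  | cons y l ih =>
    obtain ⟨N, hN, ⟨A, hA⟩, hl⟩ := ih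
    refine ⟨N * y.1.den, Nat.mul_pos hN y.1.den_pos, ⟨A * y.1.den, ?_⟩, ?_⟩
    · push_cast
      rw [← hA]; ring
    · intro x hx
      rcases List.mem_cons.mp hx with rfl | hx
      · refine ⟨N * x.1.num, ?_⟩
        push_cast
        have := Rat.mul_den_eq_num x.1
        rw [← this]; ring
      · obtain ⟨a, ha⟩ := hl x hx
        refine ⟨a * y.1.den, ?_⟩
        push_cast
        rw [← ha]; ring

theorem EPF_int (N : ℕ) (l : List (ℚ × (ℕ → ℤ))) (h : ∀ x ∈ l, ∃ a : ℤ, (N : ℚ) * x.1 = a) (H L : ℕ)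
    (hL : ∀ x ∈ l, (L : ℤ) ≤ x.2 H) : ∃ t : ℤ, (N : ℚ) * ev l H = 2 ^ L * t := by
  induction l with
  | nil => exact ⟨0, by simp [ev_nil]⟩
  | cons y l ih =>
    obtain ⟨t, ht⟩ := ih (fun x hx => h x (by simp [hx])) (fun x hx => hL x (by simp [hx]))
    obtain ⟨a, ha⟩ := h y (by simp)
    have h1 := hL y (by simp)
    obtain ⟨m, hm⟩ := Int.eq_ofNat_of_zero_le (sub_nonneg.mpr h1)
    refine ⟨a * 2 ^ m + t, ?_⟩
    have e : y.2 H = (L : ℤ) + (m : ℤ) := by omega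
    rw [ev_cons, mul_add, ht, e, zpow_add₀ (by norm_num : (2 : ℚ) ≠ 0), zpow_natCast, zpow_natCast]
    push_cast
    rw [← ha]; ring

theorem EPF (hEPR : EPR_stmt) (hBTM : BTM_stmt) : EPF_stmt := by
  intro k q l f hstd
  obtain ⟨hl, -, hf⟩ := hstd
  obtain ⟨N, hN, ⟨A, hA⟩, hNl⟩ := EPF_den q l
  obtain ⟨c, b, hb, hNcb⟩ := Nat.exists_eq_two_pow_mul_odd hN.ne'
  have key : ∀ H : ℕ, (f H : ℚ) = q + ev l H → ∀ L : ℕ, (∀ x ∈ l, ((c + L : ℕ) : ℤ) ≤ x.2 H) →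
      ∃ t : ℤ, (2 : ℤ) ^ c * (b * f H) = A + 2 ^ c * (2 ^ L * t) := by
    intro H hH L hL
    obtain ⟨t, ht⟩ := EPF_int N l hNl H (c + L) hL
    refine ⟨t, ?_⟩
    have h2 : (N : ℚ) * f H = A + 2 ^ (c + L) * t := by
      rw [hH, mul_add, hA, ht]
    have h3 : ((N * f H : ℤ) : ℚ) = ((A + 2 ^ (c + L) * t : ℤ) : ℚ) := by
      push_cast
      exact h2
    have h4 : (N : ℤ) * f H = A + 2 ^ (c + L) * t := by exact_mod_cast h3
    rw [hNcb] at h4
    push_cast at h4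
    rw [pow_add] at h4
    linear_combination h4
  have hdiv : (2 : ℤ) ^ c ∣ A := by
    have h1 : ∀ᶠ H : ℕ in atTop, ∀ x ∈ l, ((c + 0 : ℕ) : ℤ) ≤ x.2 H :=
      EPF_all l _ (fun x hx => (hl x hx).2.2.eventually_ge_atTop _)
    obtain ⟨H, hH1, hH2⟩ := (h1.and hf).exists
    obtain ⟨t, ht⟩ := key H hH2 0 hH1
    refine ⟨b * f H - 2 ^ 0 * t, ?_⟩
    linear_combination -ht
  obtain ⟨a, ha⟩ := hdiv
  obtain ⟨s, hs, hsL⟩ := hEPR a b (Nat.odd_iff.mp hb)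
  refine ⟨s, (c : ℤ), hs, ?_⟩
  intro E hE
  have hE' := EPF_all l _ hE
  filter_upwards [hE', hf] with H h1 h2 i hi
  have hE0 : 0 ≤ E H := by omega
  obtain ⟨L, hL⟩ := Int.eq_ofNat_of_zero_le hE0
  obtain ⟨t, ht⟩ := key H h2 L (by
    intro x hx
    have := h1 x hx
    push_cast
    omega)
  obtain ⟨t', ht'⟩ := hsL L
  have h3 : (b : ℤ) * f H = a + 2 ^ L * t := by
    have h2c : (2 : ℤ) ^ c ≠ 0 := by positivity
    apply mul_left_cancel₀ h2c
    rw [ht, ha]; ring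
  have h4 : (2 : ℤ) ^ L ∣ (b : ℤ) * (f H - val s L) := by
    refine ⟨t + t', ?_⟩
    rw [mul_sub, h3]
    linear_combination ht'
  have hcop : IsCoprime ((2 : ℤ) ^ L) (b : ℤ) := by
    apply IsCoprime.pow_left
    have : Nat.Coprime 2 b := by
      rw [Nat.coprime_two_left]; exact hb
    exact_mod_cast Nat.isCoprime_iff_coprime.mpr this
  have h5 : (2 : ℤ) ^ L ∣ f H - val s L := hcop.dvd_of_dvd_mul_left h4
  exact hBTM (f H) s L h5 i (by
    have : (i : ℤ) < (L : ℤ) := by rw [← hL]; exact hi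
    exact_mod_cast this)

end Pool.Agent.UnivT
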