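import Pool.Agent.helper36.UT.Spec

set_option autoImplicit false

open Filter Polynomial FirstOrder FirstOrder.Language

namespace Pool.Agent.UnivT

theorem PSP_step (k : ℕ) : (Nat.digits 2 k).sum = k % 2 + (Nat.digits 2 (k / 2)).sum := by
  rcases Nat.eq_zero_or_pos k with rfl | hk
  · simp
  · rw [Nat.digits_def' (by norm_num) hk]
    simp

theorem PSP_nat (n L : ℕ) : ((Nat.digits 2 n).sum : ℤ) =
    (∑ i ∈ Finset.range L, if n.testBit i then (1 : ℤ) else 0) + ((Nat.digits 2 (n / 2 ^ L)).sum : ℤ) := by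
  induction L with
  | zero => simp
  | succ L ih =>
    rw [Finset.sum_range_succ, ih, PSP_step (n / 2 ^ L)]
    have e : n / 2 ^ L / 2 = n / 2 ^ (L + 1) := by
      rw [Nat.div_div_eq_div_mul, pow_succ]
    rw [e]
    have h : ((n / 2 ^ L % 2 : ℕ) : ℤ) = if n.testBit L then (1 : ℤ) else 0 := by
      rw [Nat.testBit_eq_decide_div_mod_eq]
      rcases Nat.mod_two_eq_zero_or_one (n / 2 ^ L) with h | h <;> simp [h]
    push_cast at h ⊢
    rw [h]
    ring

theorem PSP : PSP_stmt := by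
  intro m L hm
  obtain ⟨n, rfl⟩ := Int.eq_ofNat_of_zero_le hm
  have h := PSP_nat n L
  have e : ((n : ℤ) / 2 ^ L) = ((n / 2 ^ L : ℕ) : ℤ) := by push_cast; rfl
  unfold pop cnt
  rw [e]
  simp only [Int.natAbs_natCast]
  exact h

end Pool.Agent.UnivT
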